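import Pool.Agent.H74.LK.UPR

/-!
# Labels, row UMX: a large part of a maximal family is uniformly maximal
-/

set_option autoImplicit false

namespace Pool.LK

open Finset Real
open Pool.Agent.H49.Ent Pool.Agent.H32.Dense Pool.STK Pool.KA Pool.KSAT Pool.K2S

variable {m J : ℕ}

theorem negMulLog_le_one' {x : ℝ} (hx : 0 ≤ x) : negMulLog x ≤ 1 := by
  rcases hx.eq_or_lt with h | h
  · rw [← h]
    simp
  · have h1 := Real.one_sub_inv_le_log_of_pos h
    have h2 := mul_le_mul_of_nonneg_left h1 hx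
    rw [mul_sub, mul_one, mul_inv_cancel₀ h.ne'] at h2
    unfold negMulLog
    linarith

theorem cond_of {Ω κ : Type} [Fintype Ω] (q : Ω → ℝ) {Z : Ω → κ} {z : κ} {ω : Ω} (h : Z ω = z) :
    Pool.Agent.H49.Ent.cond q Z z ω = q ω / law q Z z := by
  unfold Pool.Agent.H49.Ent.cond
  rw [if_pos h]

theorem cond_of_ne {Ω κ : Type} [Fintype Ω] (q : Ω → ℝ) {Z : Ω → κ} {z : κ} {ω : Ω}
    (h : Z ω ≠ z) : Pool.Agent.H49.Ent.cond q Z z ω = 0 := by
  unfold Pool.Agent.H49.Ent.cond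
  rw [if_neg h]

/-- The conditioned law of a conditioned law. -/
theorem cond_and {Ω : Type} [Fintype Ω] {p : Ω → ℝ} {A A' : Ω → Prop} (hA : 0 < Pe p A) :
    Pool.Agent.H49.Ent.cond (Pool.Agent.H49.Ent.cond p A True) A' True =
      Pool.Agent.H49.Ent.cond p (fun ω => A ω ∧ A' ω) True := by
  classical
  have h1 : law (Pool.Agent.H49.Ent.cond p A True) A' True =
      law p (fun ω => A ω ∧ A' ω) True / law p A True := Pe_cond A'
  funext ω
  by_cases h3 : A' ω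
  · rw [cond_of _ (eq_true h3), h1]
    by_cases h2 : A ω
    · rw [cond_of _ (eq_true h2), cond_of p (Z := fun ω => A ω ∧ A' ω) (z := True) (ω := ω)
        (eq_true ⟨h2, h3⟩), div_div_div_cancel_right₀ hA.ne']
    · rw [cond_of_ne _ (fun h => h2 (of_eq_true h)), cond_of_ne p
        (Z := fun ω => A ω ∧ A' ω) (z := True) (ω := ω) (fun h => h2 (of_eq_true h).1), zero_div]
  · rw [cond_of_ne _ (fun h => h3 (of_eq_true h)), cond_of_ne p
        (Z := fun ω => A ω ∧ A' ω) (z := True) (ω := ω) (fun h => h3 (of_eq_true h).2)]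

/-- A maximal disjoint family. -/
theorem exists_max_disj {Ω : Type} [Fintype Ω] (Bad : Finset Ω → Prop)
    (hne : ∀ S, Bad S → S.Nonempty) : ∃ 𝒜 : Finset (Finset Ω), (∀ S ∈ 𝒜, Bad S) ∧
      (∀ S ∈ 𝒜, ∀ S' ∈ 𝒜, ∀ ω, ω ∈ S → ω ∈ S' → S = S') ∧
      ∀ S, Bad S → ∃ S' ∈ 𝒜, ∃ ω, ω ∈ S ∧ ω ∈ S' := by
  classical
  obtain ⟨𝒜, h𝒜, hmax⟩ := Finset.exists_max_image
    ((univ : Finset (Finset (Finset Ω))).filter fun 𝒜 => (∀ S ∈ 𝒜, Bad S) ∧
      ∀ S ∈ 𝒜, ∀ S' ∈ 𝒜, ∀ ω, ω ∈ S → ω ∈ S' → S = S') (fun 𝒜 => 𝒜.card)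
    ⟨∅, by simp⟩
  rw [Finset.mem_filter] at h𝒜
  obtain ⟨-, h1, h2⟩ := h𝒜
  refine ⟨𝒜, h1, h2, fun S hS => ?_⟩
  by_contra hcon
  push Not at hcon
  have hS𝒜 : S ∉ 𝒜 := by
    intro h
    obtain ⟨ω, hω⟩ := hne S hS
    exact hcon S h ω hω hω
  have h3 := hmax (insert S 𝒜) (by
    rw [Finset.mem_filter]
    refine ⟨Finset.mem_univ _, ?_, ?_⟩
    · intro S' hS'
      rcases Finset.mem_insert.1 hS' with rfl | h
      · exact hS
      · exact h1 S' h
    · intro S₁ h₁ S₂ h₂ ω hω₁ hω₂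
      rcases Finset.mem_insert.1 h₁ with rfl | h₁'
      · rcases Finset.mem_insert.1 h₂ with rfl | h₂'
        · rfl
        · exact absurd hω₂ (hcon S₂ h₂' ω hω₁)
      · rcases Finset.mem_insert.1 h₂ with rfl | h₂'
        · exact absurd hω₁ (hcon S₁ h₁' ω hω₂)
        · exact h2 S₁ h₁' S₂ h₂' ω hω₁ hω₂)
  rw [Finset.card_insert_of_notMem hS𝒜] at h3
  omega

/-- **(UMX)** -/
theorem umx_thm (hMIX : MIXLStmt) (hTRV : TRVLStmt) : UMXStmt := by
  classical
  intro m b a R hb ha hR hU τ hτ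
  have hl2 : 0 < Real.log 2 := Real.log_pos (by norm_num)
  obtain ⟨θ₁, hθ₁, J₁, hrest⟩ := rest_le hTRV hb ha hR hU (η := τ / 16) (by positivity)
  obtain ⟨τ₂, hτ₂, J₂, hupr⟩ := upr_thm hMIX hTRV m b a R hb ha hR hU (1 / 4) (by norm_num) τ hτ
  obtain ⟨τ₁, hτ₁⟩ : ∃ τ₁ : ℝ, τ₁ = min (min θ₁ τ₂) (τ / 16) := ⟨_, rfl⟩
  have hτ10 : 0 < τ₁ := by rw [hτ₁]; positivity
  have l1 : τ₁ ≤ θ₁ := by rw [hτ₁]; exact (min_le_left _ _).trans (min_le_left _ _)
  have l2 : τ₁ ≤ τ₂ := by rw [hτ₁]; exact (min_le_left _ _).trans (min_le_right _ _)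
  have l3 : τ₁ ≤ τ / 16 := by rw [hτ₁]; exact min_le_right _ _
  obtain ⟨J₃, hJ₃⟩ := exists_nat_ge (1 / (τ / 16))
  refine ⟨τ₁, hτ10, max (max J₁ J₂) (max J₃ 1), fun J hJ F hF => ?_⟩
  have hJ1 : J₁ ≤ J := (le_max_left _ _).trans ((le_max_left _ _).trans hJ)
  have hJ2 : J₂ ≤ J := (le_max_right _ _).trans ((le_max_left _ _).trans hJ)
  have hJ3 : (J₃ : ℝ) ≤ J := by
    exact_mod_cast (le_max_left _ _).trans ((le_max_right _ _).trans hJ)
  have hJ0 : (0 : ℝ) ≤ J := Nat.cast_nonneg J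
  have k1 : 1 ≤ τ / 16 * J := by
    rw [← div_le_iff₀' (by positivity)]; linarith
  have hτJ : 0 < τ * J := by linarith
  have m1 : τ₁ * J ≤ θ₁ * J := mul_le_mul_of_nonneg_right l1 hJ0
  have m2 : τ₁ * J ≤ τ₂ * J := mul_le_mul_of_nonneg_right l2 hJ0
  have m3 : τ₁ * J ≤ τ / 16 * J := mul_le_mul_of_nonneg_right l3 hJ0
  have hp := F.isLaw.nonneg
  -- the bad events
  obtain ⟨Bad, hBad⟩ : ∃ Bad : Finset F.Ω → Prop, Bad = fun S =>
      0 < Pe F.p (fun ω => ω ∈ S) ∧ ∃ B : Lbl F b,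
        val a (Pool.Agent.H49.Ent.cond F.p (fun ω => ω ∈ S) True) B <
          (R - τ / 2) * J + Real.log (Pe F.p (fun ω => ω ∈ S)) := ⟨_, rfl⟩
  have hBadiff : ∀ S, Bad S ↔ (0 < Pe F.p (fun ω => ω ∈ S) ∧ ∃ B : Lbl F b,
        val a (Pool.Agent.H49.Ent.cond F.p (fun ω => ω ∈ S) True) B <
          (R - τ / 2) * J + Real.log (Pe F.p (fun ω => ω ∈ S))) := by
    intro S
    rw [hBad]
  have hne : ∀ S, Bad S → S.Nonempty := by
    intro S hS
    by_contra h
    rw [Finset.not_nonempty_iff_eq_empty] at h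
    have h1 := ((hBadiff S).1 hS).1
    rw [h, Pool.K2S.Pe_eq] at h1
    simp at h1
  obtain ⟨𝒜, h𝒜1, h𝒜2, h𝒜3⟩ := exists_max_disj Bad hne
  -- the label
  obtain ⟨c, hc⟩ : ∃ c : F.Ω → Option (Finset F.Ω), c = fun ω =>
      if h : ∃ S, S ∈ 𝒜 ∧ ω ∈ S then some (Classical.choose h) else none := ⟨_, rfl⟩
  have hcmem : ∀ ω S, c ω = some S → S ∈ 𝒜 ∧ ω ∈ S := by
    intro ω S h
    rw [hc] at h
    simp only at h
    split_ifs at h with h1
    · have h2 := Classical.choose_spec h1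
      rw [Option.some.injEq] at h
      rw [h] at h2
      exact h2
  have hcsome : ∀ ω S, S ∈ 𝒜 → ω ∈ S → c ω = some S := by
    intro ω S hS hω
    have h1 : ∃ S, S ∈ 𝒜 ∧ ω ∈ S := ⟨S, hS, hω⟩
    have h2 := Classical.choose_spec h1
    rw [hc]
    simp only
    rw [dif_pos h1, Option.some.injEq]
    exact h𝒜2 _ h2.1 S hS ω h2.2 hω
  have hclaw : ∀ S ∈ 𝒜, Pool.Agent.H49.Ent.cond F.p c (some S) =
      Pool.Agent.H49.Ent.cond F.p (fun ω => ω ∈ S) True ∧
      law F.p c (some S) = Pe F.p (fun ω => ω ∈ S) := by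
    intro S hS
    have h1 : (fun ω => c ω = some S) = fun ω => ω ∈ S := by
      funext ω
      exact propext ⟨fun h => (hcmem ω S h).2, hcsome ω S hS⟩
    have h2 := cond_eq_prop F.p c (some S)
    rw [h1] at h2
    exact h2
  have hclaw0 : ∀ S, S ∉ 𝒜 → law F.p c (some S) = 0 := by
    intro S hS
    unfold law
    refine Finset.sum_eq_zero fun ω _ => ?_
    rw [if_neg fun h => hS (hcmem ω S h).1]
  obtain ⟨A, hAd⟩ : ∃ A : F.Ω → Prop, A = fun ω => c ω = none := ⟨_, rfl⟩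
  obtain ⟨hA1, hA2⟩ := cond_eq_prop F.p c none
  rw [← hAd] at hA1 hA2
  obtain ⟨B₀, hB₀⟩ := hrest J hJ1 F (AP5.Tm_mono hF.1 m1) A
  obtain ⟨B', hB'⟩ := mixv hMIX (F := F) (b := b) (by linarith : 0 ≤ a) c
    (fun k => match k with
      | none => B₀
      | some S => if h : Bad S then Classical.choose ((hBadiff S).1 h).2 else B₀)
  have h1 := hF.2 B'
  rw [val_self] at h1
  have hH : CH F.p c F.Z ≤ H F.p c := by
    unfold CH
    have := subadd F.isLaw.nonneg F.isLaw.sum_one (X := c) (Y := F.Z)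
      (W := fun ω => (c ω, F.Z ω)) (fun _ _ _ _ h => h)
    linarith
  rw [H_eq_sum_of_subset F.p c (Finset.subset_univ _), Fintype.sum_option] at hH
  rw [Fintype.sum_option] at hB'
  simp only at hB'
  have hsum : law F.p c none + ∑ S, law F.p c (some S) = 1 := by
    have := tya_law_sum F.p c
    rwa [Fintype.sum_option, F.isLaw.sum_one] at this
  have hl0 : 0 ≤ law F.p c none := law_nonneg hp c none
  have h2 := negMulLog_le_one' hl0
  have h3 : ∑ S, (negMulLog (law F.p c (some S)) + law F.p c (some S) *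
      val a (Pool.Agent.H49.Ent.cond F.p c (some S))
        (if h : Bad S then Classical.choose ((hBadiff S).1 h).2 else B₀)) ≤
      ∑ S, law F.p c (some S) * ((R - τ / 2) * J) := by
    refine Finset.sum_le_sum fun S _ => ?_
    by_cases hS : S ∈ 𝒜
    · have hb := h𝒜1 S hS
      rw [dif_pos hb, (hclaw S hS).1, (hclaw S hS).2]
      have h4 := ((hBadiff S).1 hb).1
      have h5 := Classical.choose_spec ((hBadiff S).1 hb).2
      have h6 := mul_le_mul_of_nonneg_left h5.le h4.le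
      unfold negMulLog
      rw [mul_add] at h6
      linarith
    · rw [hclaw0 S hS]
      simp
  rw [Finset.sum_add_distrib, ← Finset.sum_mul] at h3
  rw [hA1, hA2] at hB'
  rw [hA2] at hH hsum hl0 h2
  have h4 : 1 / 4 ≤ Pe F.p A := by
    by_contra hcon
    push Not at hcon
    have h5 : ∑ S, law F.p c (some S) = 1 - Pe F.p A := by
      have e : law F.p A True = Pe F.p A := rfl
      rw [e] at hsum
      linarith
    rw [h5] at h3
    have e : law F.p A True = Pe F.p A := rfl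
    rw [e] at hB' hH h2
    have h6 : (1 - Pe F.p A) * ((R - τ / 2) * J) =
      R * J - Pe F.p A * R * J - τ / 2 * J + Pe F.p A * (τ / 2 * J) := by ring
    have h7 : Pe F.p A * (τ / 2 * J) ≤ 1 / 4 * (τ / 2 * J) :=
      mul_le_mul_of_nonneg_right hcon.le (by positivity)
    have h8 : (Pe F.p A * R + τ / 16) * J = Pe F.p A * R * J + τ / 16 * J := by ring
    have h9 : (R - τ₁) * J = R * J - τ₁ * J := by ring
    linarith
  have hA0 : 0 < Pe F.p A := by linarith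
  obtain ⟨h, hM⟩ := hupr J hJ2 F ⟨AP5.Tm_mono hF.1 m2, hF.2.mono (by nlinarith)⟩ A h4
  refine ⟨A, h, h4, ?_, hM⟩
  intro A' h'
  refine Gge_res.2 fun B => ?_
  have hq0 : 0 < law (Pool.Agent.H49.Ent.cond F.p A True) A' True := by
    rcases (law_nonneg h.nonneg A' True).eq_or_lt with h5 | h5
    · exfalso
      have h6 := h'.sum_one
      have h7 : ∀ ω, Pool.Agent.H49.Ent.cond (F.res A True h).p A' True ω = 0 := by
        intro ω
        have h8 : law (F.res A True h).p A' True = 0 := h5.symm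
        unfold Pool.Agent.H49.Ent.cond
        rw [h8, div_zero, ite_self]
      rw [Finset.sum_eq_zero fun ω _ => h7 ω] at h6
      exact zero_ne_one h6
    · exact h5
  have h5 : Pe (Pool.Agent.H49.Ent.cond F.p A True) A' =
      Pe F.p (fun ω => A ω ∧ A' ω) / Pe F.p A := Pe_cond A'
  obtain ⟨S, hS⟩ : ∃ S : Finset F.Ω, S = univ.filter fun ω => A ω ∧ A' ω := ⟨_, rfl⟩
  have hS' : (fun ω => ω ∈ S) = fun ω => A ω ∧ A' ω := by
    funext ω
    rw [hS]
    simp
  have h6 : ¬ Bad S := by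
    intro hbad
    obtain ⟨S', hS'1, ω, hω1, hω2⟩ := h𝒜3 S hbad
    rw [hS, Finset.mem_filter] at hω1
    have h7 : c ω = none := by
      have := hω1.2.1
      rwa [hAd] at this
    rw [hcsome ω S' hS'1 hω2] at h7
    exact absurd h7 (by simp)
  rw [hBadiff, hS'] at h6
  push Not at h6
  have h7 : 0 < Pe F.p (fun ω => A ω ∧ A' ω) := by
    have h8 : 0 < Pe F.p (fun ω => A ω ∧ A' ω) / Pe F.p A := by
      rw [← h5]
      exact hq0
    rwa [div_pos_iff_of_pos_right hA0] at h8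
  have h8 := h6 h7 (Lbl.up B)
  have h9 : val a (Pool.Agent.H49.Ent.cond (F.res A True h).p A' True) B =
      val a (Pool.Agent.H49.Ent.cond F.p (fun ω => A ω ∧ A' ω) True) (Lbl.up B) := by
    rw [← cond_and hA0]
    rfl
  rw [h9]
  refine le_trans ?_ h8
  have h10 : Real.log (Pe (F.res A True h).p A') =
      Real.log (Pe F.p (fun ω => A ω ∧ A' ω)) - Real.log (Pe F.p A) := by
    have h11 : Pe (F.res A True h).p A' = Pe F.p (fun ω => A ω ∧ A' ω) / Pe F.p A := h5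
    rw [h11, Real.log_div h7.ne' hA0.ne']
  rw [h10]
  have h11 : Real.log (1 / 4) ≤ Real.log (Pe F.p A) := Real.log_le_log (by norm_num) h4
  have h12 : Real.log (1 / 4 : ℝ) = -(2 * Real.log 2) := by
    rw [show (1 / 4 : ℝ) = (2 ^ 2)⁻¹ by norm_num, Real.log_inv, Real.log_pow]
    push_cast
    ring
  have h13 : Real.log 2 ≤ 1 := by
    have := Real.log_two_lt_d9
    linarith
  have h14 : (R - τ) * J = (R - τ / 2) * J - 8 * (τ / 16 * J) := by ring
  rw [h14]
  linarith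

end Pool.LK
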