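import Pool.Agent.H74.LK.Mix

/-!
# Labels, row UPR: restriction of maximal families to an event of fixed probability
-/

set_option autoImplicit false

namespace Pool.LK

open Finset Real
open Pool.Agent.H49.Ent Pool.Agent.H32.Dense Pool.STK Pool.KA Pool.KSAT Pool.K2S

variable {m J : ℕ}

theorem Pe_add_not {F : Fam m J} (A : F.Ω → Prop) : Pe F.p A + Pe F.p (fun ω => ¬ A ω) = 1 := by
  have h := AP5.law_prop_sum F A
  have h1 := (cond_eq_prop F.p A False).2
  have h2 : law F.p (fun ω => A ω = False) True = Pe F.p (fun ω => ¬ A ω) := by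
    have : (fun ω => A ω = False) = fun ω => ¬ A ω := by
      funext ω
      simp
    rw [this]
  rw [h1, h2] at h
  exact h

/-- The mixture of an event and its complement. -/
theorem mix2 (hMIX : MIXLStmt) {F : Fam m J} {b a : ℝ} (ha : 0 ≤ a) (A : F.Ω → Prop)
    (B B₀ : Lbl F b) : ∃ B' : Lbl F b, val a F.p B' ≤ Real.log 2 +
      Pe F.p A * val a (Pool.Agent.H49.Ent.cond F.p A True) B +
      Pe F.p (fun ω => ¬ A ω) * val a (Pool.Agent.H49.Ent.cond F.p (fun ω => ¬ A ω) True) B₀ := by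
  classical
  obtain ⟨B', hB'⟩ := mixv hMIX ha (F := F) (b := b) A (fun k => if k then B else B₀)
  refine ⟨B', hB'.trans ?_⟩
  rw [Fintype.univ_Prop, Finset.sum_pair (by simp)]
  have h1 : CH F.p A F.Z ≤ Real.log 2 := by
    have h2 := CH_le_card F.isLaw.nonneg F.isLaw.sum_one A F.Z (fun _ => univ)
      (fun _ _ => mem_univ _)
    rw [Ex_const F.isLaw.sum_one, Finset.card_univ, Fintype.card_prop] at h2
    exact_mod_cast h2
  have e1 : Pool.Agent.H49.Ent.cond F.p A False =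
      Pool.Agent.H49.Ent.cond F.p (fun ω => ¬ A ω) True := by
    rw [(cond_eq_prop F.p A False).1]
    have : (fun ω => A ω = False) = fun ω => ¬ A ω := by
      funext ω
      simp
    rw [this]
  have e2 : law F.p A False = Pe F.p (fun ω => ¬ A ω) := by
    rw [(cond_eq_prop F.p A False).2]
    have : (fun ω => A ω = False) = fun ω => ¬ A ω := by
      funext ω
      simp
    rw [this]
  rw [if_pos trivial, if_neg not_false, e1, e2]
  linarith

/-- **(UPR)** -/
theorem upr_thm (hMIX : MIXLStmt) (hTRV : TRVLStmt) : UPRStmt := by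
  classical
  intro m b a R hb ha hR hU ρ hρ τ hτ
  have hl2 : 0 < Real.log 2 := Real.log_pos (by norm_num)
  obtain ⟨θ₁, hθ₁, J₁, hrest⟩ := rest_le hTRV hb ha hR hU (η := ρ * τ / 4) (by positivity)
  obtain ⟨τ₁, hτ₁⟩ : ∃ τ₁ : ℝ, τ₁ = min θ₁ (ρ * τ / 4) := ⟨_, rfl⟩
  have hτ10 : 0 < τ₁ := by rw [hτ₁]; positivity
  obtain ⟨J₂, hJ₂⟩ := exists_nat_ge (Real.log 2 / (ρ * τ / 4))
  refine ⟨τ₁, hτ10, max J₁ J₂, fun J hJ F hF A hA => ?_⟩
  obtain ⟨hTm, hGa⟩ := hF
  have hJ0 : (0 : ℝ) ≤ J := Nat.cast_nonneg J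
  have hJJ : (J₂ : ℝ) ≤ J := by exact_mod_cast (le_max_right _ _).trans hJ
  have k1 : Real.log 2 ≤ ρ * τ / 4 * J := by
    rw [← div_le_iff₀' (by positivity)]; linarith
  have hA0 : 0 < Pe F.p A := hρ.trans_le hA
  have k2 : τ₁ * J ≤ θ₁ * J := mul_le_mul_of_nonneg_right (by rw [hτ₁]; exact min_le_left _ _) hJ0
  have k3 : τ₁ * J ≤ ρ * τ / 4 * J :=
    mul_le_mul_of_nonneg_right (by rw [hτ₁]; exact min_le_right _ _) hJ0
  obtain ⟨hlaw, htya⟩ := tya_thm m J F Prop A _ hTm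
  have hTime := (htya hlaw).2
  rw [Fintype.card_prop] at hTime
  push_cast at hTime
  have k4 : ρ * τ * J ≤ Pe F.p A * (τ * J) := by
    have := mul_le_mul_of_nonneg_right hA (by positivity : 0 ≤ τ * J)
    linarith
  refine ⟨hlaw True hA0, AP5.Tm_mono (hTime True hA0) ?_, Gge_res.2 fun B => ?_⟩
  · rw [div_le_iff₀ hA0]
    have h5 : τ * J * law F.p A True = Pe F.p A * (τ * J) := by ring
    rw [h5]
    have h6 : 0 ≤ ρ * τ * J := by positivity
    linarith
  · obtain ⟨B₀, hB₀⟩ := hrest J ((le_max_left _ _).trans hJ) F (AP5.Tm_mono hTm k2)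
      (fun ω => ¬ A ω)
    obtain ⟨B', hB'⟩ := mix2 hMIX (F := F) (by linarith : 0 ≤ a) A B B₀
    have h1 := hGa B'
    rw [val_self] at h1
    have h2 := Pe_add_not A
    have h3 : Pe F.p (fun ω => ¬ A ω) = 1 - Pe F.p A := by linarith
    rw [h3] at hB₀ hB'
    have h4 : Pe F.p A * ((R - τ) * J) ≤
        Pe F.p A * val a (Pool.Agent.H49.Ent.cond F.p A True) B := by
      nlinarith
    exact le_of_mul_le_mul_left h4 hA0

end Pool.LK
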