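import Pool.Agent.H13.LK.Stmts
import Pool.Agent.H97.K2.AP5
import Pool.Agent.H35.K2S.Dich

/-!
# Labels: values of labels for restricted laws, mixtures
-/

set_option autoImplicit false

namespace Pool.LK

open Finset Real
open Pool.Agent.H49.Ent Pool.Agent.H32.Dense Pool.STK Pool.KA Pool.KSAT Pool.K2S

variable {m J : ℕ}

/-- The value of a label for another law. -/
noncomputable def val {F : Fam m J} {b : ℝ} (a : ℝ) (q : F.Ω → ℝ) (B : Lbl F b) : ℝ :=
  CH q B.lab F.Z + (∑ ω, q ω * ∑ i, ((J : ℝ) - B.k ω i)) * Real.log 2 - a * CH q (F.X J) F.W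

theorem val_self {F : Fam m J} {b a : ℝ} (B : Lbl F b) :
    B.cost - a * CH F.p (F.X J) F.W = val a F.p B := rfl

/-- A label of a restricted family is a label. -/
def Lbl.up {F : Fam m J} {b : ℝ} {κ : Type} {c : F.Ω → κ} {k : κ}
    {h : IsLaw (Pool.Agent.H49.Ent.cond F.p c k)} (B : Lbl (F.res c k h) b) : Lbl F b :=
  ⟨B.k, B.M, B.le, B.bd, B.inv⟩

/-- A label is a label of the restricted families. -/
def Lbl.dn {F : Fam m J} {b : ℝ} {κ : Type} {c : F.Ω → κ} {k : κ}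
    (h : IsLaw (Pool.Agent.H49.Ent.cond F.p c k)) (B : Lbl F b) : Lbl (F.res c k h) b :=
  ⟨B.k, B.M, B.le, B.bd, B.inv⟩

theorem Gge_res {F : Fam m J} {b a v : ℝ} {κ : Type} {c : F.Ω → κ} {k : κ}
    {h : IsLaw (Pool.Agent.H49.Ent.cond F.p c k)} :
    Gge (F.res c k h) b a v ↔ ∀ B : Lbl F b, v ≤ val a (Pool.Agent.H49.Ent.cond F.p c k) B :=
  ⟨fun H B => H (Lbl.dn h B), fun H B => H (Lbl.up B)⟩

theorem Gle_res {F : Fam m J} {b a v : ℝ} {κ : Type} {c : F.Ω → κ} {k : κ}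
    {h : IsLaw (Pool.Agent.H49.Ent.cond F.p c k)} :
    Gle (F.res c k h) b a v ↔ ∃ B : Lbl F b, val a (Pool.Agent.H49.Ent.cond F.p c k) B ≤ v :=
  ⟨fun ⟨B, H⟩ => ⟨Lbl.up B, H⟩, fun ⟨B, H⟩ => ⟨Lbl.dn h B, H⟩⟩

/-- **Mixtures.** -/
theorem mixv (hMIX : MIXLStmt) {F : Fam m J} {b a : ℝ} (ha : 0 ≤ a) {K : Type} [Fintype K]
    (c : F.Ω → K) (B : K → Lbl F b) :
    ∃ B' : Lbl F b, val a F.p B' ≤ CH F.p c F.Z +
      ∑ k, law F.p c k * val a (Pool.Agent.H49.Ent.cond F.p c k) (B k) := by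
  classical
  have hp := F.isLaw.nonneg
  have h : ∀ k, law F.p c k ≠ 0 → IsLaw (Pool.Agent.H49.Ent.cond F.p c k) :=
    fun k hk => ⟨cond_nonneg hp c k, sum_cond F.p c hk⟩
  obtain ⟨B', hB'⟩ := hMIX m b J F K c h (fun k hk => Lbl.dn (h k hk) (B k))
  refine ⟨B', ?_⟩
  have h1 : ∑ k, law F.p c k *
      (if hk : law F.p c k ≠ 0 then (Lbl.dn (h k hk) (B k)).cost else 0) =
      ∑ k, law F.p c k * (CH (Pool.Agent.H49.Ent.cond F.p c k) (B k).lab F.Z +
        (∑ ω, Pool.Agent.H49.Ent.cond F.p c k ω * ∑ i, ((J : ℝ) - (B k).k ω i)) *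
          Real.log 2) := by
    refine Finset.sum_congr rfl fun k _ => ?_
    by_cases hk : law F.p c k ≠ 0
    · rw [dif_pos hk]
      rfl
    · push Not at hk
      rw [dif_neg (not_not.2 hk), mul_zero, hk, zero_mul]
  rw [h1] at hB'
  have h2 := (tya_CH_le F.isLaw (F.X J) F.W c).1
  rw [tya_CH_sum hp] at h2
  have h3 := mul_le_mul_of_nonneg_left h2 ha
  rw [Finset.mul_sum] at h3
  have h4 : ∑ k, law F.p c k * val a (Pool.Agent.H49.Ent.cond F.p c k) (B k) =
      ∑ k, law F.p c k * (CH (Pool.Agent.H49.Ent.cond F.p c k) (B k).lab F.Z +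
        (∑ ω, Pool.Agent.H49.Ent.cond F.p c k ω * ∑ i, ((J : ℝ) - (B k).k ω i)) *
          Real.log 2) -
      ∑ k, a * (law F.p c k * CH (Pool.Agent.H49.Ent.cond F.p c k) (F.X J) F.W) := by
    rw [← Finset.sum_sub_distrib]
    refine Finset.sum_congr rfl fun k _ => ?_
    unfold val
    ring
  rw [h4, ← val_self]
  linarith

/-- The times have entropy at most `J log 2`. -/
theorem CHT_le {F : Fam m J} {q : F.Ω → ℝ} (hq : IsLaw q) {S : Type} (W : F.Ω → S) :
    CH q F.T W ≤ J * Real.log 2 := by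
  have h4 := CH_le_card hq.nonneg hq.sum_one F.T W (fun _ => Finset.range (2 ^ J))
    (fun ω _ => Finset.mem_range.2 (F.tim ω))
  rw [Ex_const hq.sum_one, Finset.card_range] at h4
  push_cast at h4
  rwa [Real.log_pow] at h4

theorem cond_eq_prop {Ω κ : Type} [Fintype Ω] (p : Ω → ℝ) (c : Ω → κ) (k : κ) :
    Pool.Agent.H49.Ent.cond p c k = Pool.Agent.H49.Ent.cond p (fun ω => c ω = k) True ∧
      law p c k = law p (fun ω => c ω = k) True := by
  classical
  have h1 : law p c k = law p (fun ω => c ω = k) True := by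
    unfold law
    refine Finset.sum_congr rfl fun ω _ => ?_
    by_cases h : c ω = k <;> simp [h]
  refine ⟨?_, h1⟩
  funext ω
  unfold Pool.Agent.H49.Ent.cond
  rw [h1]
  by_cases h : c ω = k <;> simp [h]

/-- The value of the rest of a partition. -/
theorem rest_le (hTRV : TRVLStmt) {b a R : ℝ} (hb : 1 ≤ b) (ha : 1 ≤ a) (hR : 0 < R)
    (hU : UBl m b a R) {η : ℝ} (hη : 0 < η) : ∃ θ₁ > 0, ∃ J₁ : ℕ, ∀ J ≥ J₁, ∀ F : Fam m J,
      F.Tm (θ₁ * J) → ∀ A : F.Ω → Prop, ∃ B : Lbl F b,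
        Pe F.p A * val a (Pool.Agent.H49.Ent.cond F.p A True) B ≤ (Pe F.p A * R + η) * J := by
  classical
  obtain ⟨C, hC, hT⟩ := hTRV m b hb
  have hl2 : 0 < Real.log 2 := Real.log_pos (by norm_num)
  obtain ⟨θ', hθ', J', hJ'⟩ := hU (η / 2) (by positivity)
  obtain ⟨L, hL⟩ : ∃ L : ℝ, L = (m + 1) * Real.log 2 := ⟨_, rfl⟩
  have hL0 : 0 < L := by rw [hL]; positivity
  obtain ⟨ε, hε⟩ : ∃ ε : ℝ, ε = η / 2 / L := ⟨_, rfl⟩
  have hε0 : 0 < ε := by rw [hε]; positivity
  have hεL : ε * L = η / 2 := by rw [hε]; field_simp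
  obtain ⟨J₁, hJ₁⟩ := exists_nat_ge (Real.log 2 / (ε * θ' / 2) + C / (η / 2))
  refine ⟨ε * θ' / 2, by positivity, max J' J₁, fun J hJ F hTm A => ?_⟩
  have hJ0 : (0 : ℝ) ≤ J := Nat.cast_nonneg J
  have hJJ : (J₁ : ℝ) ≤ J := by exact_mod_cast (le_max_right _ _).trans hJ
  have t1 : 0 ≤ Real.log 2 / (ε * θ' / 2) := by positivity
  have t2 : 0 ≤ C / (η / 2) := by positivity
  have k1 : Real.log 2 ≤ ε * θ' / 2 * J := by
    rw [← div_le_iff₀' (by positivity)]; linarith
  have k2 : C ≤ η / 2 * J := by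
    rw [← div_le_iff₀' (by positivity)]; linarith
  have hP0 : 0 ≤ Pe F.p A := law_nonneg F.isLaw.nonneg A True
  have hP1 : Pe F.p A ≤ 1 := by
    have := law_le_total F.isLaw.nonneg A True
    rwa [F.isLaw.sum_one] at this
  obtain ⟨hlaw, htya⟩ := tya_thm m J F Prop A _ hTm
  have hTime := (htya hlaw).2
  rw [Fintype.card_prop] at hTime
  push_cast at hTime
  rcases hP0.eq_or_lt with h0 | h0
  · obtain ⟨B, -⟩ := hT J F a ha
    refine ⟨B, ?_⟩
    rw [← h0]
    have : 0 ≤ η * J := by positivity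
    linarith
  · rcases le_or_gt ε (Pe F.p A) with h1 | h1
    · have h2 : (F.res A True (hlaw True h0)).Tm (θ' * J) := by
        refine AP5.Tm_mono (hTime True h0) ?_
        rw [div_le_iff₀ h0]
        have h4 : ε * (θ' * J) ≤ Pe F.p A * (θ' * J) :=
          mul_le_mul_of_nonneg_right h1 (by positivity)
        have h5 : θ' * J * law F.p A True = Pe F.p A * (θ' * J) := by ring
        rw [h5]
        linarith
      obtain ⟨B, hB⟩ := Gle_res.1 (hJ' J ((le_max_left _ _).trans hJ) _ h2)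
      refine ⟨B, ?_⟩
      have h3 := mul_le_mul_of_nonneg_left hB h0.le
      have h4 : Pe F.p A * (η / 2 * J) ≤ 1 * (η / 2 * J) :=
        mul_le_mul_of_nonneg_right hP1 (by positivity)
      have h5 : 0 ≤ η * J := by positivity
      have h6 : Pe F.p A * ((R + η / 2) * J) = Pe F.p A * R * J + Pe F.p A * (η / 2 * J) := by
        ring
      rw [h6] at h3
      linarith
    · obtain ⟨B, hB⟩ := Gle_res.1 (hT J (F.res A True (hlaw True h0)) a ha)
      refine ⟨B, ?_⟩
      have e1 : CH (F.res A True (hlaw True h0)).p (F.res A True (hlaw True h0)).T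
          (F.res A True (hlaw True h0)).Z ≤ J * Real.log 2 :=
        CHT_le (hlaw True h0) F.Z
      have e2 : 0 ≤ CH (F.res A True (hlaw True h0)).p (F.res A True (hlaw True h0)).T
          (fun ω => ((F.res A True (hlaw True h0)).l ω, (F.res A True (hlaw True h0)).Z ω)) :=
        CH_nonneg (hlaw True h0).nonneg _ _
      have h3 : val a (Pool.Agent.H49.Ent.cond F.p A True) B ≤ L * J + C := by
        refine hB.trans ?_
        rw [hL]
        linarith
      have h4 := mul_le_mul_of_nonneg_left h3 h0.le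
      have h5 : Pe F.p A * (L * J) ≤ ε * (L * J) := mul_le_mul_of_nonneg_right h1.le (by positivity)
      have h6 : ε * (L * J) = η / 2 * J := by rw [← mul_assoc, hεL]
      have h7 : Pe F.p A * C ≤ 1 * C := mul_le_mul_of_nonneg_right hP1 hC
      have h8 : 0 ≤ Pe F.p A * R * J := by positivity
      rw [mul_add] at h4
      linarith

end Pool.LK
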